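import Pool.Agent.Helper75.Slab.Goals

set_option autoImplicit false

open Set

namespace Pool.Agent.Helper69.Slab

open Pool.Agent.Helper75.Slab

/-- scalar Gronwall in both directions -/
theorem gron (t K : ℝ) (y y' : ℝ → ℝ)
    (hd : ∀ s ∈ Icc 0 t, HasDerivWithinAt y (y' s) (Icc 0 t) s)
    (hb : ∀ s ∈ Icc 0 t, |y' s| ≤ K * |y s|) (s : ℝ) (hs : s ∈ Icc 0 t) :
    (y 0 = 0 → y s = 0) ∧ (y 0 ≠ 0 → y s ≠ 0) := by
  have ht : 0 ≤ t := hs.1.trans hs.2
  have h0 : (0 : ℝ) ∈ Icc 0 t := ⟨le_rfl, ht⟩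
  have hy2 : ∀ s ∈ Icc 0 t, |y s * y' s| ≤ K * (y s) ^ 2 := by
    intro s hs
    rw [abs_mul]
    calc |y s| * |y' s| ≤ |y s| * (K * |y s|) := by gcongr; exact hb s hs
      _ = K * |y s| ^ 2 := by ring
      _ = K * (y s) ^ 2 := by rw [sq_abs]
  have key : ∀ c : ℝ, ∀ s ∈ Icc 0 t, HasDerivWithinAt (fun τ => (y τ) ^ 2 * Real.exp (c * τ))
      ((2 * (y s * y' s) + c * (y s) ^ 2) * Real.exp (c * s)) (Icc 0 t) s := by
    intro c s hs
    have e1 : HasDerivWithinAt (fun τ => (y τ) ^ 2) (2 * (y s * y' s)) (Icc 0 t) s := by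
      have := (hd s hs).pow 2
      simp only [Nat.cast_ofNat] at this
      refine this.congr_deriv ?_
      ring
    have e2 : HasDerivWithinAt (fun τ => Real.exp (c * τ)) (Real.exp (c * s) * (c * 1)) (Icc 0 t) s :=
      ((hasDerivWithinAt_id s _).const_mul c).exp
    refine (e1.mul e2).congr_deriv ?_
    ring
  have hmono : MonotoneOn (fun τ => (y τ) ^ 2 * Real.exp (2 * K * τ)) (Icc 0 t) := by
    refine monotoneOn_of_hasDerivWithinAt_nonneg (convex_Icc 0 t)
      (fun s hs => (key (2 * K) s hs).continuousWithinAt)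
      (f' := fun s => (2 * (y s * y' s) + (2 * K) * (y s) ^ 2) * Real.exp (2 * K * s)) ?_ ?_
    · intro s hs
      exact (key (2 * K) s (interior_subset hs)).mono interior_subset
    · intro s hs
      have := hy2 s (interior_subset hs)
      rw [abs_le] at this
      apply mul_nonneg _ (Real.exp_pos _).le
      linarith [this.1]
  have hanti : AntitoneOn (fun τ => (y τ) ^ 2 * Real.exp (-(2 * K) * τ)) (Icc 0 t) := by
    refine antitoneOn_of_hasDerivWithinAt_nonpos (convex_Icc 0 t)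
      (fun s hs => (key (-(2 * K)) s hs).continuousWithinAt)
      (f' := fun s => (2 * (y s * y' s) + (-(2 * K)) * (y s) ^ 2) * Real.exp (-(2 * K) * s)) ?_ ?_
    · intro s hs
      exact (key (-(2 * K)) s (interior_subset hs)).mono interior_subset
    · intro s hs
      have := hy2 s (interior_subset hs)
      rw [abs_le] at this
      apply mul_nonpos_of_nonpos_of_nonneg _ (Real.exp_pos _).le
      linarith [this.2]
  have m1 := hmono h0 hs hs.1
  have m2 := hanti h0 hs hs.1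
  simp only [mul_zero, Real.exp_zero, mul_one] at m1 m2
  constructor
  · intro h
    rw [h] at m2
    have h5 : (y s) ^ 2 * Real.exp (-(2 * K) * s) ≤ 0 := by
      refine m2.trans ?_
      norm_num
    have h6 : (y s) ^ 2 ≤ 0 := by
      by_contra hcon
      push Not at hcon
      have := mul_pos hcon (Real.exp_pos (-(2 * K) * s))
      linarith
    have h7 : (y s) ^ 2 = 0 := le_antisymm h6 (sq_nonneg _)
    exact pow_eq_zero_iff (two_ne_zero) |>.1 h7
  · intro h hcon
    rw [hcon] at m1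
    have h5 : (y 0) ^ 2 ≤ 0 := by
      refine m1.trans ?_
      simp
    exact h (pow_eq_zero_iff (two_ne_zero) |>.1 (le_antisymm h5 (sq_nonneg _)))

/-- positivity is preserved -/
theorem gron_pos (t K : ℝ) (y y' : ℝ → ℝ)
    (hd : ∀ s ∈ Icc 0 t, HasDerivWithinAt y (y' s) (Icc 0 t) s)
    (hb : ∀ s ∈ Icc 0 t, |y' s| ≤ K * |y s|) (s : ℝ) (hs : s ∈ Icc 0 t) (h : 0 < y 0) : 0 < y s := by
  by_contra hcon
  push Not at hcon
  have hc : ContinuousOn y (Icc 0 s) := fun r hr =>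
    ((hd r ⟨hr.1, hr.2.trans hs.2⟩).continuousWithinAt).mono (Icc_subset_Icc le_rfl hs.2)
  obtain ⟨r, hr, hr0⟩ := intermediate_value_Icc' hs.1 hc ⟨hcon, h.le⟩
  exact (gron t K y y' hd hb r ⟨hr.1, hr.2.trans hs.2⟩).2 h.ne' hr0

theorem wall : G_WALL := by
  intro t K u φ ht hL hF hW
  obtain ⟨hK, _, hLip⟩ := hL
  have hnorm : ∀ (x : E) (a : ℝ), ‖x - ![x 0, x 1, a]‖ = |x 2 - a| := by
    intro x a
    apply le_antisymm
    · rw [pi_norm_le_iff_of_nonneg (abs_nonneg _)]
      intro i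
      fin_cases i
      · simp
      · simp
      · simp
    · have := norm_le_pi_norm (x - ![x 0, x 1, a]) 2
      simpa using this
  have hbd : ∀ s ∈ Icc 0 t, ∀ x : E, ∀ a : ℝ, (a = 0 ∨ a = 1) → |ext u s x 2| ≤ K * |x 2 - a| := by
    intro s hs x a ha
    have hcl : clamp ![x 0, x 1, a] = ![x 0, x 1, a] := by
      unfold clamp
      rcases ha with h | h <;> subst h <;> simp
    have hM : (![x 0, x 1, a] : E) ∈ M := by
      unfold M
      rcases ha with h | h <;> subst h <;> simp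
    have hz : ext u s ![x 0, x 1, a] 2 = 0 := by
      show u s (clamp ![x 0, x 1, a]) 2 = 0
      rw [hcl]
      exact hW s hs _ hM (by simpa using ha)
    have h1 := hLip s hs x ![x 0, x 1, a]
    rw [hnorm] at h1
    have h2 := norm_le_pi_norm (ext u s x - ext u s ![x 0, x 1, a]) 2
    rw [Pi.sub_apply, hz, sub_zero, Real.norm_eq_abs] at h2
    exact h2.trans h1
  have hd : ∀ X : E, ∀ s ∈ Icc 0 t, HasDerivWithinAt (fun τ => φ τ X 2) (ext u s (φ s X) 2)
      (Icc 0 t) s := fun X s hs => (hasDerivWithinAt_pi.1 (hF.2 X s hs)) 2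
  have hd1 : ∀ X : E, ∀ s ∈ Icc 0 t, HasDerivWithinAt (fun τ => 1 - φ τ X 2)
      (-(ext u s (φ s X) 2)) (Icc 0 t) s := by
    intro X s hs
    have := (hasDerivWithinAt_const s (Icc 0 t) (1 : ℝ)).sub (hd X s hs)
    refine this.congr_deriv ?_
    ring
  have hb0 : ∀ X : E, ∀ s ∈ Icc 0 t, |ext u s (φ s X) 2| ≤ K * |φ s X 2| := by
    intro X s hs
    have := hbd s hs (φ s X) 0 (Or.inl rfl)
    simpa using this
  have hb1 : ∀ X : E, ∀ s ∈ Icc 0 t, |-(ext u s (φ s X) 2)| ≤ K * |1 - φ s X 2| := by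
    intro X s hs
    have := hbd s hs (φ s X) 1 (Or.inr rfl)
    rw [abs_neg, abs_sub_comm]
    exact this
  have z0 : ∀ X : E, X 2 = 0 → ∀ s ∈ Icc 0 t, φ s X 2 = 0 := by
    intro X hX s hs
    refine (gron t K (fun τ => φ τ X 2) _ (hd X) (hb0 X) s hs).1 ?_
    simp only [hF.1 X, hX]
  have z1 : ∀ X : E, X 2 = 1 → ∀ s ∈ Icc 0 t, φ s X 2 = 1 := by
    intro X hX s hs
    have := (gron t K (fun τ => 1 - φ τ X 2) _ (hd1 X) (hb1 X) s hs).1 (by
      simp only [hF.1 X, hX, sub_self])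
    linarith
  have p0 : ∀ X : E, 0 < X 2 → ∀ s ∈ Icc 0 t, 0 < φ s X 2 := by
    intro X hX s hs
    refine gron_pos t K (fun τ => φ τ X 2) _ (hd X) (hb0 X) s hs ?_
    simp only [hF.1 X, hX]
  have p1 : ∀ X : E, X 2 < 1 → ∀ s ∈ Icc 0 t, φ s X 2 < 1 := by
    intro X hX s hs
    have := gron_pos t K (fun τ => 1 - φ τ X 2) _ (hd1 X) (hb1 X) s hs (by
      simp only [hF.1 X]; linarith)
    linarith
  intro s hs
  refine ⟨fun X hX => ?_, fun X hX => ⟨p0 X hX.1 s hs, p1 X hX.2 s hs⟩,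
    fun X hX => z0 X hX s hs, fun X hX => z1 X hX s hs⟩
  constructor
  · rcases hX.1.eq_or_lt with h | h
    · exact (z0 X h.symm s hs).ge
    · exact (p0 X h s hs).le
  · rcases hX.2.eq_or_lt with h | h
    · exact (z1 X h s hs).le
    · exact (p1 X h s hs).le

namespace WALL

theorem thm : G_WALL := wall

end WALL

end Pool.Agent.Helper69.Slab
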